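import Pool.Agent.R955.FD.Defs

set_option autoImplicit false

namespace Pool.Agent.R860.FD

open MeasureTheory Set Filter Topology
open scoped ENNReal FourierTransform
open Pool.Agent.R955.FD

universe u

lemma trig_sum {X : Type u} [NormedAddCommGroup X] [NormedSpace ℂ X] {ι : Type} (s : Finset ι)
    (c : ι → (ℤ →₀ X)) (t : ℝ) : trig (∑ n ∈ s, c n) t = ∑ n ∈ s, trig (c n) t := by
  unfold trig
  rw [Finsupp.sum_finset_sum_index]
  · intro a; simp
  · intro a b c; simp

lemma trig_single {X : Type u} [NormedAddCommGroup X] [NormedSpace ℂ X] (n : ℤ) (x : X) (t : ℝ) :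
    trig (Finsupp.single n x) t = ch (n : ℝ) t • x := by
  unfold trig
  rw [Finsupp.sum_single_index]
  simp

lemma DT_smp {X : Type u} [NormedAddCommGroup X] [NormedSpace ℂ X] (g : ℝ → X) (A : ℝ) (N : ℕ)
    (I : Set ℝ) : DT (pre N I) (smp g A N) = TN g A N I := by
  classical
  ext t
  unfold DT smp TN
  rw [Finsupp.filter_sum, trig_sum]
  apply Finset.sum_congr rfl
  intro n _
  by_cases h : (n : ℝ) / N ∈ I
  · rw [Finsupp.filter_single_of_pos _ (show n ∈ pre N I from h), trig_single, if_pos h,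
      smul_comm]
  · rw [Finsupp.filter_single_of_neg _ (show ¬ n ∈ pre N I from h), if_neg h]
    simp [trig]

theorem t_TNC : S_TNC.{u} := by
  intro X _ _ g A N hN
  have hN0 : (0:ℝ) < N := by exact_mod_cast hN
  refine ⟨?_, fun I => DT_smp g A N I, ?_⟩
  · rw [← DT_smp g A N univ]
    unfold DT
    congr 1
    symm
    rw [Finsupp.filter_eq_self_iff]
    intro n _
    exact mem_univ ((n : ℝ) / N)
  · intro J hJ
    obtain ⟨h1, h2, h3⟩ := hJ
    refine ⟨?_, ?_, ?_⟩
    · intro i
      refine ⟨fun x hx y hy z hz => ?_⟩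
      have hx' : (x : ℝ) / N ∈ J i := hx
      have hy' : (y : ℝ) / N ∈ J i := hy
      refine (h1 i).out hx' hy' ⟨?_, ?_⟩
      · apply div_le_div_of_nonneg_right _ hN0.le
        exact_mod_cast hz.1
      · apply div_le_div_of_nonneg_right _ hN0.le
        exact_mod_cast hz.2
    · intro i j hij
      rw [Set.disjoint_left]
      intro n hn hn2
      exact Set.disjoint_left.mp (h2 i j hij) hn hn2
    · intro n
      obtain ⟨i, hi⟩ := h3 ((n : ℝ) / N)
      exact ⟨i, hi⟩

end Pool.Agent.R860.FD
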